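import Pool.Agent.Q74.CE.Sel
import Mathlib.Probability.Distributions.Uniform

set_option autoImplicit false

/-! Divergent trajectories of the `3x+1` map on the integers and normal sequences. The elements of an
invariant set (the integers with divergent trajectories, for example) select from every sequence which is
generic for an ergodic measure a sequence which is generic for the same measure; from normal sequences,
normal sequences. So a divergent trajectory can be recognised by a single normal sequence. -/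

namespace Pool.Agent.Results.MP_ff4775_nt.DivergenceAndNormality

open Finset Filter Topology MeasureTheory

/-- the `3x+1` map on the integers -/
def T (x : ℤ) : ℤ := if x % 2 = 0 then x / 2 else (3 * x + 1) / 2

/-- `S` is invariant: `x ∈ S` if and only if `T x ∈ S`. -/
def Invariant (S : Set ℤ) : Prop := ∀ x : ℤ, x ∈ S ↔ T x ∈ S

/-- The trajectory of `x` is divergent. -/
def Divergent (x : ℤ) : Prop := Tendsto (fun k : ℕ => |T^[k] x|) atTop atTop

/-- Among the integers of sign `s` the set `S` has natural density `δ`. -/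
def HasDensity (s : ℤ) (S : Set ℤ) (δ : ℝ) : Prop :=
  Tendsto (fun N : ℕ => ({n : ℤ | 0 < s * n ∧ s * n ≤ N ∧ n ∈ S}.ncard : ℝ) / N) atTop (𝓝 δ)

/-- the `k`-th of the positive integers `n` with `s n ∈ S`, in their order, for `k = 0, 1, ...` -/
noncomputable def element (s : ℤ) (S : Set ℤ) (k : ℕ) : ℕ := Nat.nth (fun n : ℕ => 1 ≤ n ∧ s * (n : ℤ) ∈ S) k

/-- the shift of sequences of letters -/
def shift {A : Type} (x : ℕ → A) : ℕ → A := fun n => x (n + 1)

/-- The sequence `d` is generic for the measure `μ` on the space of the sequences: every word `v` occurs in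
`d` with the frequency `μ [v]`, where `[v]` is the cylinder of the sequences which begin with `v`. -/
def Generic {A : Type} [MeasurableSpace A] (μ : Measure (ℕ → A)) (d : ℕ → A) : Prop :=
  ∀ (m : ℕ) (v : Fin m → A),
    Tendsto (fun N : ℕ => ({n : ℕ | n < N ∧ ∀ i : Fin m, d (n + i) = v i}.ncard : ℝ) / N) atTop
      (𝓝 (μ.real {x | ∀ i : Fin m, x i = v i}))

/-- The sequence `d` of digits is normal: every word of `m` digits occurs with the frequency `b ^ (-m)`. -/
def Normal {b : ℕ} (d : ℕ → Fin b) : Prop :=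
  ∀ (m : ℕ) (v : Fin m → Fin b),
    Tendsto (fun N : ℕ => ({n : ℕ | n < N ∧ ∀ i : Fin m, d (n + i) = v i}.ncard : ℝ) / N) atTop
      (𝓝 (1 / (b : ℝ) ^ m))

/-- the divergent trajectories form an invariant set -/
theorem divergent_inv : Invariant {x | Divergent x} := by
  intro x
  show Tendsto (fun k : ℕ => |T^[k] x|) atTop atTop ↔ Tendsto (fun k : ℕ => |T^[k] (T x)|) atTop atTop
  have h : (fun k : ℕ => |T^[k] (T x)|) = fun k : ℕ => (fun k : ℕ => |T^[k] x|) (k + 1) := by
    funext k
    rw [← Function.iterate_succ_apply]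
  rw [h]
  exact (tendsto_add_atTop_iff_nat (f := fun k : ℕ => |T^[k] x|) 1).symm

/-- the trajectory of `0` does not diverge -/
theorem divergent_ne {x : ℤ} (hx : Divergent x) : x ≠ 0 := by
  rintro rfl
  have hT0 : ∀ i : ℕ, T^[i] 0 = 0 := by
    intro i
    induction i with
    | zero => rfl
    | succ i ih => rw [Function.iterate_succ_apply]; exact ih
  unfold Divergent at hx
  simp only [hT0, abs_zero] at hx
  exact not_tendsto_const_atTop _ _ hx

section
variable {A : Type} [Fintype A] [MeasurableSpace A] [DiscreteMeasurableSpace A] {μ : Measure (ℕ → A)}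
  [IsProbabilityMeasure μ]

open Classical in
theorem mean_word {d : ℕ → A} (hd : Generic μ d) {m : ℕ} (v : Fin m → A) :
    Tendsto (fun N : ℕ => (∑ n ∈ Icc 1 N, if (∀ i : Fin m, d (n + i) = v i) then (1 : ℝ) else 0) / N) atTop
      (𝓝 (μ.real {x | ∀ i : Fin m, x i = v i})) := by
  apply Pool.Agent.Q74.CE.to_Icc
  refine (hd m v).congr fun N => ?_
  rw [Pool.Agent.Q74.CE.ncard_range]

/-- part (1) (a) -/
theorem part_a (hμ : Ergodic (shift (A := A)) μ) {d : ℕ → A} (hd : Generic μ d) {s : ℤ} (hs : s = 1 ∨ s = -1)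
    {m : ℕ} (v : Fin m → A) {ε : ℝ} (hε : 0 < ε) : ∃ N₀ : ℕ, ∀ N : ℕ, N₀ ≤ N → ∀ S : Set ℤ, Invariant S →
      ∀ δ : ℝ, HasDensity s S δ →
        |({n : ℕ | 1 ≤ n ∧ n ≤ N ∧ s * (n : ℤ) ∈ S ∧ ∀ i : Fin m, d (n + i) = v i}.ncard : ℝ)
          - δ * μ.real {x | ∀ i : Fin m, x i = v i} * N| ≤ ε * N := by
  classical
  obtain ⟨N₁, h1⟩ := (Pool.Agent.Q74.CE.flat hs).word (μ := μ) hμ hd v (ε := ε / 2) (by positivity)
  have h2 := mean_word hd v
  obtain ⟨N₂, h3⟩ := Metric.tendsto_atTop.1 h2 (ε / 2) (by positivity)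
  refine ⟨max (max N₁ N₂) 1, fun N hN S hS δ hδ => ?_⟩
  have hN1 : N₁ ≤ N := (le_max_left _ _).trans ((le_max_left _ _).trans hN)
  have hN2 : N₂ ≤ N := (le_max_right _ _).trans ((le_max_left _ _).trans hN)
  have hNp : (0 : ℝ) < N := by exact_mod_cast (le_max_right _ _).trans hN
  obtain ⟨hδ0, hδ1⟩ := Pool.Agent.Q74.CE.ND_bounds hs (S := S) hS hδ
  have h4 := h1 (Pool.Agent.Q74.CE.wt s S δ) ⟨S, hS, δ, hδ, rfl⟩ N hN1
  have h5 := h3 N hN2
  set p := μ.real {x | ∀ i : Fin m, x i = v i} with hp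
  set a : ℕ → ℝ := fun n => if (∀ i : Fin m, d (n + i) = v i) then (1 : ℝ) else 0 with ha
  have h6 : |∑ n ∈ Icc 1 N, a n - p * N| ≤ ε / 2 * N := by
    rw [Real.dist_eq] at h5
    have h7 : ∑ n ∈ Icc 1 N, a n - p * N = ((∑ n ∈ Icc 1 N, a n) / N - p) * N := by field_simp
    rw [h7, abs_mul, abs_of_pos hNp]
    exact mul_le_mul_of_nonneg_right h5.le hNp.le
  have h7 : ({n : ℕ | 1 ≤ n ∧ n ≤ N ∧ s * (n : ℤ) ∈ S ∧ ∀ i : Fin m, d (n + i) = v i}.ncard : ℝ) =
      ∑ n ∈ Icc 1 N, Pool.Agent.Q74.CE.wt s S δ n * a n + δ * ∑ n ∈ Icc 1 N, a n := by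
    rw [← Pool.Agent.Q74.CE.sum_split]
    have h8 : {n : ℕ | 1 ≤ n ∧ n ≤ N ∧ s * (n : ℤ) ∈ S ∧ ∀ i : Fin m, d (n + i) = v i} =
        ((((Icc 1 N).filter (fun n : ℕ => s * (n : ℤ) ∈ S)).filter (fun n => ∀ i : Fin m, d (n + i) = v i) :
          Finset ℕ) : Set ℕ) := by
      ext n
      simp only [Set.mem_ofPred_eq, coe_filter, mem_filter, mem_Icc]
      tauto
    rw [h8, Set.ncard_coe_finset, ← Finset.sum_boole]
  have h8 : ({n : ℕ | 1 ≤ n ∧ n ≤ N ∧ s * (n : ℤ) ∈ S ∧ ∀ i : Fin m, d (n + i) = v i}.ncard : ℝ) - δ * p * N =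
      ∑ n ∈ Icc 1 N, Pool.Agent.Q74.CE.wt s S δ n * a n + δ * (∑ n ∈ Icc 1 N, a n - p * N) := by
    rw [h7]; ring
  rw [h8]
  refine (abs_add_le _ _).trans ?_
  have h9 : |δ * (∑ n ∈ Icc 1 N, a n - p * N)| ≤ ε / 2 * N := by
    rw [abs_mul, abs_of_nonneg hδ0]
    calc δ * |∑ n ∈ Icc 1 N, a n - p * N| ≤ 1 * (ε / 2 * N) := mul_le_mul hδ1 h6 (abs_nonneg _) zero_le_one
      _ = _ := one_mul _
  linarith

open Classical in
/-- part (1) (c) -/
theorem part_c (hμ : Ergodic (shift (A := A)) μ) {d : ℕ → A} (hd : Generic μ d) {a c : A} (hac : c ≠ a)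
    (hc : 0 < μ {x | x 0 = c}) :
    (¬ ∃ x : ℤ, Divergent x) ↔
      Generic μ (fun n : ℕ => if Divergent (n : ℤ) ∨ Divergent (-(n : ℤ)) then a else d n) := by
  constructor
  · intro hQ
    have h0 : ∀ x : ℤ, ¬ Divergent x := fun x hx => hQ ⟨x, hx⟩
    simpa only [h0, or_self, if_false] using hd
  · intro hg
    rintro ⟨y, hy⟩
    have hy0 := divergent_ne hy
    obtain ⟨s, hs, δ, hδ0, hδ⟩ := Pool.Agent.Q74.CE.dens_of_mem (S := {x | Divergent x}) divergent_inv hy hy0
    set v : Fin 1 → A := fun _ => c with hv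
    set p := μ.real {x : ℕ → A | ∀ i : Fin 1, x i = v i} with hp
    have hp0 : 0 < p := by
      have : {x : ℕ → A | ∀ i : Fin 1, x i = v i} = {x | x 0 = c} := by
        ext x
        simp [hv]
      rw [hp, this]
      exact ENNReal.toReal_pos hc.ne' (measure_ne_top _ _)
    have h1 := mean_word hg v
    have h2 := mean_word hd v
    have h3 := Pool.Agent.Q74.CE.along (s := s) (S := {x | Divergent x}) (δ := δ)
      (a := fun n => if (∀ i : Fin 1, d (n + i) = v i) then (1 : ℝ) else 0) (fun ε hε => by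
        obtain ⟨N₀, h4⟩ := (Pool.Agent.Q74.CE.flat hs).word hμ hd v hε
        exact ⟨N₀, fun N hN => h4 (Pool.Agent.Q74.CE.wt s {x | Divergent x} δ)
          ⟨{x | Divergent x}, divergent_inv, δ, hδ, rfl⟩ N hN⟩) h2
    have h4 : μ.real {x : ℕ → A | ∀ i : Fin 1, x i = v i} ≤ p - δ * p := by
      refine le_of_tendsto_of_tendsto' h1 (h2.sub h3) fun N => ?_
      rw [← sub_div]
      apply div_le_div_of_nonneg_right _ (Nat.cast_nonneg N)
      rw [sum_filter, ← sum_sub_distrib]
      refine sum_le_sum fun n _ => ?_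
      simp only [hv, Fin.forall_fin_one, Fin.val_zero, add_zero, Set.mem_ofPred_eq]
      by_cases h5 : Divergent (n : ℤ) ∨ Divergent (-(n : ℤ))
      · rw [if_pos h5, if_neg (Ne.symm hac)]
        split_ifs <;> norm_num
      · rw [if_neg h5]
        have h6 : ¬ Divergent (s * (n : ℤ)) := by
          rcases hs with rfl | rfl
          · rw [one_mul]; exact fun h => h5 (Or.inl h)
          · rw [neg_one_mul]; exact fun h => h5 (Or.inr h)
        rw [if_neg h6, sub_zero]
    have : 0 < δ * p := mul_pos hδ0 hp0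
    linarith

end

/-- the uniform measure on the digits -/
noncomputable def unif (b : ℕ) [NeZero b] : Measure (Fin b) := (PMF.uniformOfFintype (Fin b)).toMeasure

instance (b : ℕ) [NeZero b] : IsProbabilityMeasure (unif b) := by unfold unif; infer_instance

theorem cyl_unif (b : ℕ) [NeZero b] {m : ℕ} (v : Fin m → Fin b) :
    (Measure.infinitePi fun _ : ℕ => unif b).real {x | ∀ i : Fin m, x i = v i} = 1 / (b : ℝ) ^ m := by
  classical
  have h1 : {x : ℕ → Fin b | ∀ i : Fin m, x i = v i} =
      ((range m : Finset ℕ) : Set ℕ).pi (fun i => if h : i < m then {v ⟨i, h⟩} else Set.univ) := by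
    ext x
    simp only [Set.mem_ofPred_eq, Set.mem_pi, coe_range, Set.mem_Iio]
    constructor
    · intro h i hi
      rw [dif_pos hi]
      exact h ⟨i, hi⟩
    · intro h i
      have := h i i.2
      rw [dif_pos i.2] at this
      exact this
  have h2 : ∀ y : Fin b, unif b {y} = (b : ENNReal)⁻¹ := by
    intro y
    unfold unif
    rw [PMF.toMeasure_apply_singleton _ _ (measurableSet_singleton _), PMF.uniformOfFintype_apply, Fintype.card_fin]
  rw [Measure.real, h1, Measure.infinitePi_pi _ (fun i _ => MeasurableSet.of_discrete)]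
  rw [prod_congr rfl (g := fun _ => (b : ENNReal)⁻¹) (fun i hi => by
    rw [mem_range] at hi
    rw [dif_pos hi, h2])]
  rw [prod_const, card_range, ENNReal.toReal_pow, ENNReal.toReal_inv, ENNReal.toReal_natCast, one_div, inv_pow]

theorem normal_iff (b : ℕ) [NeZero b] (d : ℕ → Fin b) :
    Normal d ↔ Generic (Measure.infinitePi fun _ : ℕ => unif b) d := by
  unfold Normal Generic
  simp only [cyl_unif]

open Classical in
/-- **Invariant sets select generic sequences.**
(1) Let the sequence `d` of letters of a finite alphabet be generic for an ergodic measure `μ`, and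
`s = ±1`. (a) For every word `v` the number of the `n ≤ N` with `s n ∈ S` at which `v` occurs in `d` is
`δ μ [v] N + o(N)`, uniformly in the invariant set `S`, where `δ` is the density of `S` among the
integers of sign `s`. (b) If the invariant set `S` contains an integer of sign `s`, then the sequence
of the letters of `d` at the places `n ≥ 1` with `s n ∈ S` is generic for `μ`. (c) Let `a` and `c` be
different letters and `μ [c] > 0`. No integer has a divergent trajectory if and only if
the sequence remains generic for `μ` when the letter `a` is put at all places `n` such that the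
trajectory of `n` or of `-n` is divergent.
(2) Let `d` be a normal sequence in base `b ≥ 2`. If the invariant set `S` contains an integer of sign
`s`, then the sequence of the digits of `d` at the places `n ≥ 1` with `s n ∈ S` is normal. No integer
has a divergent trajectory if and only if `d` remains normal when a fixed digit `a` is put at all places
`n` such that the trajectory of `n` or of `-n` is divergent. -/
theorem result :
    (∀ (A : Type) [Fintype A] [MeasurableSpace A] [DiscreteMeasurableSpace A] (μ : Measure (ℕ → A))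
      [IsProbabilityMeasure μ], Ergodic (shift (A := A)) μ → ∀ d : ℕ → A, Generic μ d →
      (∀ s : ℤ, (s = 1 ∨ s = -1) →
        (∀ (m : ℕ) (v : Fin m → A) (ε : ℝ), 0 < ε → ∃ N₀ : ℕ, ∀ N : ℕ, N₀ ≤ N → ∀ S : Set ℤ, Invariant S →
          ∀ δ : ℝ, HasDensity s S δ →
            |({n : ℕ | 1 ≤ n ∧ n ≤ N ∧ s * (n : ℤ) ∈ S ∧ ∀ i : Fin m, d (n + i) = v i}.ncard : ℝ)
              - δ * μ.real {x | ∀ i : Fin m, x i = v i} * N| ≤ ε * N) ∧
        ∀ S : Set ℤ, Invariant S → (∃ x ∈ S, 0 < s * x) → Generic μ (fun k => d (element s S k))) ∧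
      ∀ a c : A, c ≠ a → 0 < μ {x | x 0 = c} →
        ((¬ ∃ x : ℤ, Divergent x) ↔
          Generic μ (fun n : ℕ => if Divergent (n : ℤ) ∨ Divergent (-(n : ℤ)) then a else d n))) ∧
    ∀ b : ℕ, 2 ≤ b → ∀ d : ℕ → Fin b, Normal d →
      (∀ s : ℤ, (s = 1 ∨ s = -1) → ∀ S : Set ℤ, Invariant S → (∃ x ∈ S, 0 < s * x) →
        Normal (fun k => d (element s S k))) ∧
      ∀ a : Fin b, ((¬ ∃ x : ℤ, Divergent x) ↔
        Normal (fun n : ℕ => if Divergent (n : ℤ) ∨ Divergent (-(n : ℤ)) then a else d n)) := by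
  have hsel : ∀ (A : Type) [Fintype A] [MeasurableSpace A] [DiscreteMeasurableSpace A] (μ : Measure (ℕ → A))
      [IsProbabilityMeasure μ], Ergodic (shift (A := A)) μ → ∀ d : ℕ → A, Generic μ d →
      ∀ s : ℤ, (s = 1 ∨ s = -1) → ∀ S : Set ℤ, Invariant S → (∃ x ∈ S, 0 < s * x) →
        Generic μ (fun k => d (element s S k)) := by
    intro A _ _ _ μ _ hμ d hd s hs S hS hx
    obtain ⟨x, hx, hsx⟩ := hx
    obtain ⟨δ, _, _, hδ⟩ := Pool.Agent.Q74.CE.ND_exists hs (S := S) hS
    have hδ0 := Pool.Agent.Q74.CE.ND_pos hs (S := S) hS hδ hx hsx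
    exact Pool.Agent.Q74.CE.sel hs (S := S) hS hδ hδ0 hμ hd
  refine ⟨?_, ?_⟩
  · intro A _ _ _ μ _ hμ d hd
    refine ⟨fun s hs => ⟨fun m v ε hε => part_a hμ hd hs v hε, hsel A μ hμ d hd s hs⟩, fun a c hac hc =>
      part_c hμ hd hac hc⟩
  · intro b hb d hd
    haveI : NeZero b := ⟨by omega⟩
    have hμ : Ergodic (shift (A := Fin b)) (Measure.infinitePi fun _ : ℕ => unif b) :=
      Pool.Agent.Q74.CE.bern_ergodic (unif b)
    rw [normal_iff] at hd
    refine ⟨fun s hs S hS hx => ?_, fun a => ?_⟩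
    · rw [normal_iff]
      exact hsel (Fin b) _ hμ d hd s hs S hS hx
    · rw [normal_iff]
      obtain ⟨c, hc⟩ : ∃ c : Fin b, c ≠ a := by
        haveI : Nontrivial (Fin b) := Fin.nontrivial_iff_two_le.2 hb
        exact exists_ne a
      refine part_c hμ hd hc ?_
      have h1 := cyl_unif b (fun _ : Fin 1 => c)
      have h2 : {x : ℕ → Fin b | ∀ i : Fin 1, x i = c} = {x | x 0 = c} := by
        ext x
        simp
      rw [h2] at h1
      have h3 : (Measure.infinitePi fun _ : ℕ => unif b) {x | x 0 = c} ≠ 0 := by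
        intro h4
        rw [Measure.real, h4, ENNReal.toReal_zero] at h1
        have : (0 : ℝ) < 1 / (b : ℝ) ^ 1 := by
          have : (0 : ℝ) < b := by exact_mod_cast (by omega : 0 < b)
          positivity
        linarith
      exact pos_iff_ne_zero.2 h3

end Pool.Agent.Results.MP_ff4775_nt.DivergenceAndNormality
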