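import Pool.Agent.Q74.CE.Patterns

set_option autoImplicit false

/-! Divergent trajectories of the `3x+1` map on the integers and multiple recurrence. Along every invariant
set (the integers with divergent trajectories, for example) the multiple ergodic averages of commuting
transformations are asymptotic in `L²` to the averages over all times, uniformly over the invariant sets, over
all systems of commuting measure preserving transformations and over all bounded functions. In particular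
the patterns `x, x + n v₁, ..., x + n vₖ` of arbitrary sets of lattice points have their differences `n` in the
invariant set with the frequency of the set. A divergent trajectory would bring with it a positive
proportion of the return times of every multiply recurrent set. -/

namespace Pool.Agent.Results.MP_ff4775_nt.DivergenceAndRecurrence

open Finset Filter Topology MeasureTheory

/-- the `3x+1` map on the integers -/
def T (x : ℤ) : ℤ := if x % 2 = 0 then x / 2 else (3 * x + 1) / 2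

/-- `S` is invariant: `x ∈ S` if and only if `T x ∈ S`. -/
def Invariant (S : Set ℤ) : Prop := ∀ x : ℤ, x ∈ S ↔ T x ∈ S

/-- The trajectory of `x` is divergent. -/
def Divergent (x : ℤ) : Prop := Tendsto (fun k : ℕ => |T^[k] x|) atTop atTop

/-- Among the integers of sign `s` the set `S` has natural density `δ`. -/
def HasDensity (s : ℤ) (S : Set ℤ) (δ : ℝ) : Prop :=
  Tendsto (fun N : ℕ => ({n : ℤ | 0 < s * n ∧ s * n ≤ N ∧ n ∈ S}.ncard : ℝ) / N) atTop (𝓝 δ)

/-- the divergent trajectories form an invariant set -/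
theorem divergent_inv : Invariant {x | Divergent x} := by
  intro x
  show Tendsto (fun k : ℕ => |T^[k] x|) atTop atTop ↔ Tendsto (fun k : ℕ => |T^[k] (T x)|) atTop atTop
  have h : (fun k : ℕ => |T^[k] (T x)|) = fun k : ℕ => (fun k : ℕ => |T^[k] x|) (k + 1) := by
    funext k
    rw [← Function.iterate_succ_apply]
  rw [h]
  exact (tendsto_add_atTop_iff_nat (f := fun k : ℕ => |T^[k] x|) 1).symm

/-- the trajectory of `0` does not diverge -/
theorem divergent_ne {x : ℤ} (hx : Divergent x) : x ≠ 0 := by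
  rintro rfl
  have hT0 : ∀ i : ℕ, T^[i] 0 = 0 := by
    intro i
    induction i with
    | zero => rfl
    | succ i ih => rw [Function.iterate_succ_apply]; exact ih
  unfold Divergent at hx
  simp only [hT0, abs_zero] at hx
  exact not_tendsto_const_atTop _ _ hx

/-- The transformations `R i` of the probability space `(Ω, μ)` are measure preserving and commute. -/
def Commuting {k : ℕ} {Ω : Type} [MeasurableSpace Ω] (μ : Measure Ω) (R : Fin k → Ω → Ω) : Prop :=
  (∀ i, MeasurePreserving (R i) μ μ) ∧ ∀ i j x, R i (R j x) = R j (R i x)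

/-- the `f i` are measurable with absolute values at most `1` -/
def Bounded {k : ℕ} {Ω : Type} [MeasurableSpace Ω] (f : Fin k → Ω → ℝ) : Prop :=
  (∀ i, Measurable (f i)) ∧ ∀ i x, |f i x| ≤ 1

section
variable {k : ℕ} {Ω : Type} [MeasurableSpace Ω] {μ : Measure Ω} [IsProbabilityMeasure μ] {R : Fin k → Ω → Ω}
  {f : Fin k → Ω → ℝ}

omit [IsProbabilityMeasure μ] in
theorem prod_meas (hR : Commuting μ R) (hf : Bounded f) (n : ℕ) : Measurable fun x => ∏ i, f i ((R i)^[n] x) :=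
  Finset.measurable_prod _ fun i _ => (hf.1 i).comp ((hR.1 i).measurable.iterate n)

omit [IsProbabilityMeasure μ] in
theorem prod_abs (hf : Bounded f) (n : ℕ) (x : Ω) : |∏ i, f i ((R i)^[n] x)| ≤ 1 := by
  rw [abs_prod]
  exact prod_le_one (fun i _ => abs_nonneg _) fun i _ => hf.2 i _

theorem sum_div_abs (hf : Bounded f) {w : ℕ → ℝ} (hw : ∀ n, |w n| ≤ 1) (N : ℕ) (x : Ω) :
    |(∑ n ∈ Icc 1 N, w n * ∏ i, f i ((R i)^[n] x)) / N| ≤ 1 := by
  rcases Nat.eq_zero_or_pos N with rfl | hN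
  · simp
  have hN0 : (0 : ℝ) < N := by exact_mod_cast hN
  rw [abs_div, Nat.abs_cast, div_le_one hN0]
  refine (abs_sum_le_sum_abs _ _).trans ((sum_le_card_nsmul _ _ 1 fun n _ => ?_).trans ?_)
  · rw [abs_mul]
    exact mul_le_one₀ (hw n) (abs_nonneg _) (prod_abs hf n x)
  · rw [Nat.card_Icc, Nat.add_sub_cancel]; simp

/-- part (1) -/
theorem uniform (k : ℕ) {s : ℤ} (hs : s = 1 ∨ s = -1) {ε : ℝ} (hε : 0 < ε) : ∃ N₀ : ℕ, ∀ N : ℕ, N₀ ≤ N →
    ∀ S : Set ℤ, Invariant S → ∀ δ : ℝ, HasDensity s S δ →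
    ∀ (Ω : Type) [MeasurableSpace Ω] (μ : Measure Ω) [IsProbabilityMeasure μ] (R : Fin k → Ω → Ω) (f : Fin k → Ω → ℝ),
      Commuting μ R → Bounded f →
      ∫ x, ((∑ n ∈ Icc 1 N, (S.indicator (fun _ => (1 : ℝ)) (s * n) - δ) * ∏ i, f i ((R i)^[n] x)) / N) ^ 2 ∂μ ≤ ε := by
  obtain ⟨N₀, h⟩ := Pool.Agent.Q74.CE.multi_inv k hs hε
  refine ⟨max N₀ 1, fun N hN S hS δ hδ Ω _ μ _ R f hR hf => ?_⟩
  have hN0 : (0 : ℝ) < N := by exact_mod_cast (le_max_right _ _).trans hN
  have h1 := h N ((le_max_left _ _).trans hN) S hS δ hδ Ω μ R hR.1 hR.2 f hf.1 hf.2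
  have h2 : ∀ x, ((∑ n ∈ Icc 1 N, (S.indicator (fun _ => (1 : ℝ)) (s * n) - δ) * ∏ i, f i ((R i)^[n] x)) / N) ^ 2 =
      (∑ n ∈ Icc 1 N, Pool.Agent.Q74.CE.wt s S δ n * ∏ i, f i ((R i)^[n] x)) ^ 2 * ((N : ℝ) ^ 2)⁻¹ := by
    intro x
    unfold Pool.Agent.Q74.CE.wt
    rw [div_pow, div_eq_mul_inv]
  simp only [h2]
  rw [integral_mul_const, ← div_eq_mul_inv, div_le_iff₀ (by positivity)]
  exact h1

open Classical in
/-- part (2) -/
theorem limit {s : ℤ} (hs : s = 1 ∨ s = -1) (hR : Commuting μ R) (hf : Bounded f) {F : Ω → ℝ} (hF : Measurable F)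
    (hFb : ∀ x, |F x| ≤ 1)
    (h : Tendsto (fun N : ℕ => ∫ x, ((∑ n ∈ Icc 1 N, ∏ i, f i ((R i)^[n] x)) / N - F x) ^ 2 ∂μ) atTop (𝓝 0))
    {S : Set ℤ} (hS : Invariant S) {δ : ℝ} (hδ : HasDensity s S δ) :
    Tendsto (fun N : ℕ => ∫ x, ((∑ n ∈ Icc 1 N with s * ((n : ℕ) : ℤ) ∈ S, ∏ i, f i ((R i)^[n] x)) / N - δ * F x) ^ 2 ∂μ)
      atTop (𝓝 0) := by
  obtain ⟨hδ0, hδ1⟩ := Pool.Agent.Q74.CE.ND_bounds hs (S := S) hS hδ
  have hw := Pool.Agent.Q74.CE.wt_abs hs (S := S) hS hδ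
  set a : ℕ → Ω → ℝ := fun N x => (∑ n ∈ Icc 1 N, Pool.Agent.Q74.CE.wt s S δ n * ∏ i, f i ((R i)^[n] x)) / N with ha
  set b : ℕ → Ω → ℝ := fun N x => (∑ n ∈ Icc 1 N, ∏ i, f i ((R i)^[n] x)) / N - F x with hb
  have ham : ∀ N, Measurable (a N) := fun N =>
    (Finset.measurable_sum _ fun n _ => (prod_meas hR hf n).const_mul _).div_const _
  have hbm : ∀ N, Measurable (b N) := fun N =>
    ((Finset.measurable_sum _ fun n _ => prod_meas hR hf n).div_const _).sub hF
  have hab : ∀ N x, |a N x| ≤ 1 := fun N x => sum_div_abs hf hw N x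
  have hbb : ∀ N x, |b N x| ≤ 2 := by
    intro N x
    have h1 := sum_div_abs (R := R) hf (w := fun _ => 1) (by simp) N x
    simp only [one_mul] at h1
    have h2 := abs_sub ((∑ n ∈ Icc 1 N, ∏ i, f i ((R i)^[n] x)) / (N : ℝ)) (F x)
    have h3 := hFb x
    simp only [hb]
    linarith
  have hai : ∀ N, Integrable (fun x => a N x ^ 2) μ := fun N =>
    Integrable.of_bound ((ham N).pow_const 2).aestronglyMeasurable 1 (Eventually.of_forall fun x => by
      rw [Real.norm_eq_abs, abs_pow]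
      exact pow_le_one₀ (abs_nonneg _) (hab N x))
  have hbi : ∀ N, Integrable (fun x => b N x ^ 2) μ := fun N =>
    Integrable.of_bound ((hbm N).pow_const 2).aestronglyMeasurable (2 ^ 2) (Eventually.of_forall fun x => by
      rw [Real.norm_eq_abs, abs_pow]
      exact pow_le_pow_left₀ (abs_nonneg _) (hbb N x) 2)
  have ha0 : Tendsto (fun N : ℕ => ∫ x, a N x ^ 2 ∂μ) atTop (𝓝 0) := by
    rw [Metric.tendsto_atTop]
    intro ε hε
    obtain ⟨N₀, h1⟩ := uniform k hs (ε := ε / 2) (by positivity)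
    refine ⟨N₀, fun N hN => ?_⟩
    have h2 := h1 N hN S hS δ hδ Ω μ R f hR hf
    rw [Real.dist_eq, sub_zero, abs_of_nonneg (integral_nonneg fun x => sq_nonneg _)]
    have h3 : ∫ x, a N x ^ 2 ∂μ ≤ ε / 2 := h2
    linarith
  have h1 : Tendsto (fun N : ℕ => 2 * ∫ x, a N x ^ 2 ∂μ + 2 * ∫ x, b N x ^ 2 ∂μ) atTop (𝓝 (2 * 0 + 2 * 0)) :=
    (ha0.const_mul 2).add (h.const_mul 2)
  rw [mul_zero, add_zero] at h1
  refine squeeze_zero (fun N => integral_nonneg fun x => sq_nonneg _) (fun N => ?_) h1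
  rw [← integral_const_mul, ← integral_const_mul, ← integral_add ((hai N).const_mul 2) ((hbi N).const_mul 2)]
  apply integral_mono_of_nonneg (Eventually.of_forall fun x => sq_nonneg _)
    (((hai N).const_mul 2).add ((hbi N).const_mul 2)) (Eventually.of_forall fun x => ?_)
  have h2 : (∑ n ∈ Icc 1 N with s * ((n : ℕ) : ℤ) ∈ S, ∏ i, f i ((R i)^[n] x)) / N - δ * F x = a N x + δ * b N x := by
    rw [Pool.Agent.Q74.CE.sum_split δ]
    simp only [ha, hb]
    ring
  rw [h2]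
  have h3 : δ ^ 2 ≤ 1 := pow_le_one₀ hδ0 hδ1
  have h4 : (a N x + δ * b N x) ^ 2 ≤ 2 * a N x ^ 2 + 2 * (δ ^ 2 * b N x ^ 2) := by
    nlinarith [sq_nonneg (a N x - δ * b N x)]
  have h5 : δ ^ 2 * b N x ^ 2 ≤ 1 * b N x ^ 2 := mul_le_mul_of_nonneg_right h3 (sq_nonneg _)
  change (a N x + δ * b N x) ^ 2 ≤ 2 * a N x ^ 2 + 2 * b N x ^ 2
  linarith

/-- the return times with weights -/
theorem recur {s : ℤ} (hs : s = 1 ∨ s = -1) (hR : Commuting μ R) {A : Set Ω} (hA : MeasurableSet A) {S : Set ℤ}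
    (hS : Invariant S) {δ : ℝ} (hδ : HasDensity s S δ) {ε : ℝ} (hε : 0 < ε) : ∃ N₀ : ℕ, ∀ N : ℕ, N₀ ≤ N →
    |∑ n ∈ Icc 1 N, Pool.Agent.Q74.CE.wt s S δ n * μ.real {x | x ∈ A ∧ ∀ i, (R i)^[n] x ∈ A}| ≤ ε * N := by
  classical
  obtain ⟨N₀, h⟩ := uniform k hs (ε := ε ^ 2) (by positivity)
  refine ⟨max N₀ 1, fun N hN => ?_⟩
  have hN0 : (0 : ℝ) < N := by exact_mod_cast (le_max_right _ _).trans hN
  set f : Fin k → Ω → ℝ := fun _ => A.indicator (fun _ => (1 : ℝ)) with hf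
  have hfb : Bounded f := by
    refine ⟨fun _ => measurable_const.indicator hA, fun _ x => ?_⟩
    simp only [hf, Set.indicator]
    split_ifs <;> norm_num
  have h1 := h N ((le_max_left _ _).trans hN) S hS δ hδ Ω μ R f hR hfb
  set a : Ω → ℝ := fun x => (∑ n ∈ Icc 1 N, Pool.Agent.Q74.CE.wt s S δ n * ∏ i, f i ((R i)^[n] x)) / N with ha
  have ham : Measurable a :=
    (Finset.measurable_sum _ fun n _ => (prod_meas hR hfb n).const_mul _).div_const _
  have hw := Pool.Agent.Q74.CE.wt_abs hs (S := S) hS hδ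
  have hab : ∀ x, |a x| ≤ 1 := fun x => sum_div_abs hfb hw N x
  have hgm : Measurable fun x => A.indicator (fun _ => (1 : ℝ)) x * a x := (measurable_const.indicator hA).mul ham
  have hg1 : ∀ x, |A.indicator (fun _ => (1 : ℝ)) x| ≤ 1 := by
    intro x
    simp only [Set.indicator]
    split_ifs <;> norm_num
  have hgb : ∀ x, |A.indicator (fun _ => (1 : ℝ)) x * a x| ≤ 1 := by
    intro x
    rw [abs_mul]
    exact mul_le_one₀ (hg1 x) (abs_nonneg _) (hab x)
  have h2 := Pool.Agent.Q74.CE.sq_int (μ := μ) hgm hgb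
  have h3 : ∫ x, (A.indicator (fun _ => (1 : ℝ)) x * a x) ^ 2 ∂μ ≤ ∫ x, a x ^ 2 ∂μ := by
    have hai : Integrable (fun x => a x ^ 2) μ :=
      Integrable.of_bound (ham.pow_const 2).aestronglyMeasurable 1 (Eventually.of_forall fun x => by
        rw [Real.norm_eq_abs, abs_pow]
        exact pow_le_one₀ (abs_nonneg _) (hab x))
    apply integral_mono_of_nonneg (Eventually.of_forall fun x => sq_nonneg _) hai (Eventually.of_forall fun x => ?_)
    simp only
    rw [mul_pow]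
    have : A.indicator (fun _ => (1 : ℝ)) x ^ 2 ≤ 1 := by
      rw [← sq_abs]
      exact pow_le_one₀ (abs_nonneg _) (hg1 x)
    nlinarith [sq_nonneg (a x)]
  have h4 : ∫ x, A.indicator (fun _ => (1 : ℝ)) x * a x ∂μ =
      (∑ n ∈ Icc 1 N, Pool.Agent.Q74.CE.wt s S δ n * μ.real {x | x ∈ A ∧ ∀ i, (R i)^[n] x ∈ A}) / N := by
    have h5 : ∀ x, A.indicator (fun _ => (1 : ℝ)) x * a x = (∑ n ∈ Icc 1 N, Pool.Agent.Q74.CE.wt s S δ n *
        {x | x ∈ A ∧ ∀ i, (R i)^[n] x ∈ A}.indicator (fun _ => (1 : ℝ)) x) * (N : ℝ)⁻¹ := by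
      intro x
      simp only [ha]
      rw [div_eq_mul_inv, ← mul_assoc, mul_sum]
      congr 1
      refine sum_congr rfl fun n _ => ?_
      rw [mul_left_comm]
      congr 1
      simp only [hf, Set.indicator, Set.mem_ofPred_eq]
      by_cases h6 : x ∈ A
      · by_cases h7 : ∀ i, (R i)^[n] x ∈ A
        · rw [if_pos h6, if_pos ⟨h6, h7⟩, one_mul]
          exact prod_eq_one fun i _ => if_pos (h7 i)
        · rw [if_pos h6, if_neg (fun h => h7 h.2), one_mul]
          push Not at h7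
          obtain ⟨i, hi⟩ := h7
          exact prod_eq_zero (mem_univ i) (if_neg hi)
      · rw [if_neg h6, if_neg (fun h => h6 h.1), zero_mul]
    have hAm : ∀ n, MeasurableSet {x | x ∈ A ∧ ∀ i, (R i)^[n] x ∈ A} := by
      intro n
      have : {x | x ∈ A ∧ ∀ i, (R i)^[n] x ∈ A} = A ∩ ⋂ i, (R i)^[n] ⁻¹' A := by
        ext x; simp
      rw [this]
      exact hA.inter (MeasurableSet.iInter fun i => ((hR.1 i).measurable.iterate n) hA)
    simp only [h5]
    rw [integral_mul_const, integral_finsetSum, div_eq_mul_inv]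
    · congr 1
      refine sum_congr rfl fun n _ => ?_
      rw [integral_const_mul, integral_indicator_const _ (hAm n), smul_eq_mul, mul_one]
    · intro n _
      exact ((integrable_const (1 : ℝ)).indicator (hAm n)).const_mul _
  rw [h4] at h2
  have h5 : ((∑ n ∈ Icc 1 N, Pool.Agent.Q74.CE.wt s S δ n * μ.real {x | x ∈ A ∧ ∀ i, (R i)^[n] x ∈ A}) / N) ^ 2 ≤ ε ^ 2 :=
    h2.trans (h3.trans h1)
  have h6 := abs_le_of_sq_le_sq h5 hε.le
  rw [abs_div, Nat.abs_cast, div_le_iff₀ hN0] at h6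
  exact h6

open Classical in
/-- part (4) -/
theorem cycles (hR : Commuting μ R) {A : Set Ω} (hA : MeasurableSet A) {c : ℝ} (hc : 0 < c)
    (h : ∀ᶠ N : ℕ in atTop, c * N ≤ ∑ n ∈ Icc 1 N, μ.real {x | x ∈ A ∧ ∀ i, (R i)^[n] x ∈ A}) :
    (¬ ∃ x : ℤ, Divergent x) ↔ ∀ ε : ℝ, 0 < ε → ∃ᶠ N : ℕ in atTop,
      ∑ n ∈ Icc 1 N with Divergent ((n : ℕ) : ℤ) ∨ Divergent (-((n : ℕ) : ℤ)),
        μ.real {x | x ∈ A ∧ ∀ i, (R i)^[n] x ∈ A} ≤ ε * N := by
  constructor
  · intro hQ ε hε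
    apply Filter.Eventually.frequently
    filter_upwards with N
    have h0 : ∀ x : ℤ, ¬ Divergent x := fun x hx => hQ ⟨x, hx⟩
    have h1 : (Icc 1 N).filter (fun n : ℕ => Divergent ((n : ℕ) : ℤ) ∨ Divergent (-((n : ℕ) : ℤ))) = ∅ := by
      apply filter_false_of_mem
      intro n _ h
      rcases h with h | h
      · exact h0 _ h
      · exact h0 _ h
    rw [h1, sum_empty]
    positivity
  · intro hfr
    rintro ⟨y, hy⟩
    have hy0 := divergent_ne hy
    obtain ⟨s, hs, δ, hδ0, hδ⟩ := Pool.Agent.Q74.CE.dens_of_mem (S := {x | Divergent x}) divergent_inv hy hy0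
    obtain ⟨N₀, h1⟩ := recur hs hR hA (S := {x | Divergent x}) divergent_inv hδ (ε := δ * c / 4) (by positivity)
    obtain ⟨N, h2, h3, h4⟩ := ((hfr (δ * c / 4) (by positivity)).and_eventually
      (h.and (eventually_ge_atTop (max N₀ 1)))).exists
    have hN0 : (0 : ℝ) < N := by exact_mod_cast (le_max_right _ _).trans h4
    have h5 := h1 N ((le_max_left _ _).trans h4)
    set r : ℕ → ℝ := fun n => μ.real {x | x ∈ A ∧ ∀ i, (R i)^[n] x ∈ A} with hr
    have h6 := Pool.Agent.Q74.CE.sum_split (s := s) (S := {x | Divergent x}) δ r N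
    have h7 : ∑ n ∈ Icc 1 N with s * ((n : ℕ) : ℤ) ∈ {x | Divergent x}, r n ≤
        ∑ n ∈ Icc 1 N with Divergent ((n : ℕ) : ℤ) ∨ Divergent (-((n : ℕ) : ℤ)), r n := by
      apply sum_le_sum_of_subset_of_nonneg
      · intro n hn
        rw [mem_filter] at hn ⊢
        refine ⟨hn.1, ?_⟩
        have h8 : Divergent (s * (n : ℤ)) := hn.2
        rcases hs with rfl | rfl
        · left; rwa [one_mul] at h8
        · right; rwa [neg_one_mul] at h8
      · intro n _ _
        exact measureReal_nonneg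
    have h8 := neg_abs_le (∑ n ∈ Icc 1 N, Pool.Agent.Q74.CE.wt s {x | Divergent x} δ n * r n)
    have h9 : δ * (c * N) ≤ δ * ∑ n ∈ Icc 1 N, r n := mul_le_mul_of_nonneg_left h3 hδ0.le
    have h10 : 0 < δ * c * N := by positivity
    linarith

end

open Classical in
/-- **Multiple recurrence along invariant sets.** Let `s = ±1`; `S` is an invariant set of density
`δ` among the integers of sign `s`; `(Ω, μ)` is a probability space with commuting measure preserving
transformations `R₁, ..., Rₖ`, and the functions `fᵢ` are measurable with `|fᵢ| ≤ 1`.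
(1) The means over `1 ≤ n ≤ N` of `(1_S (s n) - δ) f₁ (R₁ ^ n x) ... fₖ (Rₖ ^ n x)` tend to zero in `L²`, uniformly in the
invariant set `S`, in `(Ω, μ)`, in the transformations and in the functions.
(2) If the means of `f₁ (R₁ ^ n x) ... fₖ (Rₖ ^ n x)` over `1 ≤ n ≤ N` converge in `L²` to `F`, then the sums over
the `n ≤ N` with `s n ∈ S`, divided by `N`, converge in `L²` to `δ F`.
(3) Let `v₁, ..., vₖ` be vectors in `ℤ ^ d`. For all sets `E` of lattice points in a box of side `N`, the number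
of the pairs `(x, n)` with `1 ≤ n ≤ N`, `s n ∈ S` and `x, x + n v₁, ..., x + n vₖ` in `E` is `δ` times the number of these
pairs without the condition `s n ∈ S`, up to `ε N ^ (d + 1)`, uniformly in `S` and `E`.
(4) Suppose that the means over `n ≤ N` of `μ (A ∩ R₁ ^ (-n) A ∩ ... ∩ Rₖ ^ (-n) A)` are at least `c > 0` for all large
`N`. No integer has a divergent trajectory if and only if the lower limit is zero of the sum over the
`n ≤ N` such that the trajectory of `n` or of `-n` is divergent, divided by `N`. -/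
theorem result (k : ℕ) :
    (∀ s : ℤ, (s = 1 ∨ s = -1) →
      (∀ ε : ℝ, 0 < ε → ∃ N₀ : ℕ, ∀ N : ℕ, N₀ ≤ N → ∀ S : Set ℤ, Invariant S → ∀ δ : ℝ, HasDensity s S δ →
        ∀ (Ω : Type) [MeasurableSpace Ω] (μ : Measure Ω) [IsProbabilityMeasure μ] (R : Fin k → Ω → Ω)
          (f : Fin k → Ω → ℝ), Commuting μ R → Bounded f →
          ∫ x, ((∑ n ∈ Icc 1 N, (S.indicator (fun _ => (1 : ℝ)) (s * n) - δ) * ∏ i, f i ((R i)^[n] x)) / N) ^ 2 ∂μ
            ≤ ε) ∧
      (∀ (Ω : Type) [MeasurableSpace Ω] (μ : Measure Ω) [IsProbabilityMeasure μ] (R : Fin k → Ω → Ω)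
          (f : Fin k → Ω → ℝ), Commuting μ R → Bounded f → ∀ F : Ω → ℝ, Measurable F → (∀ x, |F x| ≤ 1) →
          Tendsto (fun N : ℕ => ∫ x, ((∑ n ∈ Icc 1 N, ∏ i, f i ((R i)^[n] x)) / N - F x) ^ 2 ∂μ) atTop (𝓝 0) →
          ∀ S : Set ℤ, Invariant S → ∀ δ : ℝ, HasDensity s S δ →
            Tendsto (fun N : ℕ => ∫ x, ((∑ n ∈ Icc 1 N with s * ((n : ℕ) : ℤ) ∈ S, ∏ i, f i ((R i)^[n] x)) / N
              - δ * F x) ^ 2 ∂μ) atTop (𝓝 0)) ∧
      ∀ (d : ℕ) (v : Fin k → Fin d → ℤ) (ε : ℝ), 0 < ε → ∃ N₀ : ℕ, ∀ N : ℕ, N₀ ≤ N → ∀ S : Set ℤ, Invariant S →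
        ∀ δ : ℝ, HasDensity s S δ → ∀ (E : Finset (Fin d → ℤ)) (a : Fin d → ℤ),
          (∀ x ∈ E, ∀ j, a j ≤ x j ∧ x j < a j + N) →
          |(((E ×ˢ Icc 1 N).filter (fun p => s * (p.2 : ℤ) ∈ S ∧ ∀ i, p.1 + (p.2 : ℤ) • v i ∈ E)).card : ℝ)
            - δ * ((E ×ˢ Icc 1 N).filter (fun p => ∀ i, p.1 + (p.2 : ℤ) • v i ∈ E)).card| ≤ ε * (N : ℝ) ^ (d + 1)) ∧
    ∀ (Ω : Type) [MeasurableSpace Ω] (μ : Measure Ω) [IsProbabilityMeasure μ] (R : Fin k → Ω → Ω), Commuting μ R →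
      ∀ A : Set Ω, MeasurableSet A → ∀ c : ℝ, 0 < c →
        (∀ᶠ N : ℕ in atTop, c * N ≤ ∑ n ∈ Icc 1 N, μ.real {x | x ∈ A ∧ ∀ i, (R i)^[n] x ∈ A}) →
        ((¬ ∃ x : ℤ, Divergent x) ↔ ∀ ε : ℝ, 0 < ε → ∃ᶠ N : ℕ in atTop,
          ∑ n ∈ Icc 1 N with Divergent ((n : ℕ) : ℤ) ∨ Divergent (-((n : ℕ) : ℤ)),
            μ.real {x | x ∈ A ∧ ∀ i, (R i)^[n] x ∈ A} ≤ ε * N) := by
  refine ⟨fun s hs => ⟨fun ε hε => uniform k hs hε, ?_, ?_⟩, ?_⟩
  · intro Ω _ μ _ R f hR hf F hF hFb h S hS δ hδ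
    exact limit hs hR hf hF hFb h hS hδ
  · intro d v ε hε
    obtain ⟨N₀, h⟩ := Pool.Agent.Q74.CE.patterns k d v hs hε
    refine ⟨N₀, fun N hN S hS δ hδ E a hE => ?_⟩
    have h1 := h N hN S hS δ hδ E a hE
    refine le_trans (le_of_eq ?_) h1
    congr 1
    have h2 : ∀ (P : (Fin d → ℤ) × ℕ → Prop) [DecidablePred P], (((E ×ˢ Icc 1 N).filter P).card : ℝ) =
        ∑ x ∈ E, ∑ n ∈ Icc 1 N, if P (x, n) then (1 : ℝ) else 0 := by
      intro P _
      rw [← Finset.sum_boole, sum_product]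
    rw [h2, h2, mul_sum, ← sum_sub_distrib]
    refine sum_congr rfl fun x _ => ?_
    rw [mul_sum, ← sum_sub_distrib]
    refine sum_congr rfl fun n _ => ?_
    unfold Pool.Agent.Q74.CE.wt
    by_cases h3 : ∀ i, x + (n : ℤ) • v i ∈ E
    · by_cases h4 : s * (n : ℤ) ∈ S
      · rw [if_pos ⟨h4, h3⟩, if_pos h3, Set.indicator_of_mem h4]; ring
      · rw [if_neg (fun h => h4 h.1), if_pos h3, Set.indicator_of_notMem h4]; ring
    · rw [if_neg (fun h => h3 h.2), if_neg h3]; ring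
  · intro Ω _ μ _ R hR A hA c hc h
    exact cycles hR hA hc h

end Pool.Agent.Results.MP_ff4775_nt.DivergenceAndRecurrence
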