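import Mathlib
import Pool.Agent.Q205.RP.Window

/-!
# No divergent trajectories when the `3x+1` map is perturbed on sparse scales only

Let `W` be any set of integers which contains, for arbitrarily large `X`, all `x` with
`X ≤ |x| ≤ X ^ (2 + ε)`. The map `U` is the `3x+1` map `T` outside `W`, and
`U x = T (x + ω x)` on `W`, with independent fair coins `ω x`. Almost surely `U` has no divergent
trajectory on `ℤ`.
-/

set_option autoImplicit false

open MeasureTheory Finset Filter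

namespace Pool.Agent.Results.MP_ff4775_nt.NoiseOnSparseScales

/-- The `3x+1` map. -/
def T (x : ℤ) : ℤ := if x % 2 = 0 then x / 2 else (3 * x + 1) / 2

open Classical in
/-- The map perturbed at the places of `W`: there the argument `x` is replaced by `x + ω x`. -/
noncomputable def U (W : Set ℤ) (ω : ℤ → Fin 2) (x : ℤ) : ℤ :=
  if x ∈ W then T (x + ((ω x : ℕ) : ℤ)) else T x

/-- The law of independent fair coins, one for each integer. -/
noncomputable def coins : Measure (ℤ → Fin 2) :=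
  Measure.infinitePi (fun _ : ℤ => (PMF.uniformOfFintype (Fin 2)).toMeasure)

theorem result (ε : ℝ) (hε : 0 < ε) (W : Set ℤ)
    (hW : ∀ M : ℕ, ∃ X : ℕ, M ≤ X ∧ ∀ x : ℤ, (X : ℝ) ≤ |(x : ℝ)| →
      |(x : ℝ)| ≤ (X : ℝ) ^ (2 + ε) → x ∈ W) :
    ∀ᵐ ω ∂coins, ¬ ∃ n₀ : ℤ, Tendsto (fun k : ℕ => |(U W ω)^[k] n₀|) atTop atTop := by
  have h := Q205.RP.window_ae ε hε W hW
  change ∀ᵐ ω ∂(Q205.RP.P 2), _
  filter_upwards [h] with ω hω
  rintro ⟨x, hx⟩
  obtain ⟨H, hH⟩ := hω x
  have hU : Q205.RP.Tn (Q205.RP.GW W) ω = U W ω := rfl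
  rw [hU] at hH
  obtain ⟨k, hk⟩ := (hx.eventually_gt_atTop ⌈H⌉).exists
  have h1 : ((⌈H⌉ : ℤ) : ℝ) < ((|(U W ω)^[k] x| : ℤ) : ℝ) := by exact_mod_cast hk
  push_cast at h1
  have h2 := Int.le_ceil H
  linarith [hH k]

end Pool.Agent.Results.MP_ff4775_nt.NoiseOnSparseScales
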