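import Pool.Agent.Q74.DV.Coc
import Pool.Agent.Q74.DV.Clt

set_option autoImplicit false

/-!
The integers with divergent trajectory under the `3x+1` map: limit law of the residues, and for one
merging class the complete spectrum and the central limit theorem.
-/

namespace Pool.Agent.Results.MP_ff4775_nt.StructureOfDivergentClasses

open Finset Filter Topology MeasureTheory

/-- the `3x+1` map on the integers -/
def T (x : ℤ) : ℤ := if x % 2 = 0 then x / 2 else (3 * x + 1) / 2

/-- the number of odd terms among the first `k` terms of the trajectory of `n` -/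
def odd (k : ℕ) (n : ℤ) : ℕ := ((range k).filter fun i => T^[i] n % 2 = 1).card

/-- the trajectory of `n` is divergent -/
def Divergent (n : ℤ) : Prop := Tendsto (fun k : ℕ => |T^[k] n|) atTop atTop

/-- the trajectories of `m` and `n` merge -/
def Merge (m n : ℤ) : Prop := ∃ i j : ℕ, T^[i] m = T^[j] n

/-- the limit of `2 ^ k T^k(n) / 3 ^ (odd k n)` -/
noncomputable def W (n : ℤ) : ℝ :=
  limUnder atTop (fun k : ℕ => (2 : ℝ) ^ k * (T^[k] n : ℤ) / 3 ^ (odd k n))

/-- the logarithm of the residue `W n / n` -/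
noncomputable def logRes (n : ℤ) : ℝ := Real.log |W n / n|

open Classical in
/-- the relative time `i - j`, where `T^i(n) = T^j(n₀)` -/
noncomputable def K (n₀ n : ℤ) : ℤ := if h : Merge n n₀ then (h.choose : ℤ) - h.choose_spec.choose else 0

open Classical in
/-- the relative number of odd terms `odd i n - odd j n₀`, where `T^i(n) = T^j(n₀)` -/
noncomputable def O (n₀ n : ℤ) : ℤ :=
  if h : Merge n n₀ then (odd h.choose n : ℤ) - odd h.choose_spec.choose n₀ else 0

/-- `e x = exp (2 π i x)` -/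
noncomputable def e (x : ℝ) : ℂ := Complex.exp (2 * Real.pi * Complex.I * x)

/-- equality modulo one -/
def ModOne (a b : ℝ) : Prop := ∃ m : ℤ, a = b + m

/-- the set of the positive integers with the property `P` has the natural density `l` -/
def HasDensity (P : ℕ → Prop) (l : ℝ) : Prop :=
  Tendsto (fun N : ℕ => (Set.ncard {n : ℕ | 1 ≤ n ∧ n ≤ N ∧ P n} : ℝ) / N) atTop (𝓝 l)

open Classical in
/-- `1 / N` times the sum of `h (logRes (s n)) e (θ K + φ O + β n)` over the `n ≤ N` for which the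
trajectories of `s n` and `n₀` merge -/
noncomputable def Mean (s n₀ : ℤ) (h : ℝ → ℂ) (θ φ β : ℝ) (N : ℕ) : ℂ :=
  (∑ n ∈ (Icc 1 N).filter (fun n : ℕ => Merge (s * n) n₀),
    h (logRes (s * n)) * e (θ * K n₀ (s * n) + φ * O n₀ (s * n) + β * n)) / N

/-- `2 / log (4/3) * log n + x * log 3 * √(2 log n / (log (4/3))^3)` -/
noncomputable def bound (x : ℝ) (n : ℕ) : ℝ :=
  2 / Real.log (4 / 3) * Real.log n
    + x * (Real.log 3 * Real.sqrt (2 * Real.log n / Real.log (4 / 3) ^ 3))

/-- the distribution function of the standard normal law -/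
noncomputable def Phi (x : ℝ) : ℝ := (ProbabilityTheory.gaussianReal 0 1).real (Set.Iic x)

theorem e_eq (x : ℝ) : e x = Pool.Agent.Q74.SP.e x := by
  unfold e Pool.Agent.Q74.SP.e
  congr 1
  push_cast
  ring

theorem logRes_eq {n : ℤ} (hn : n ≠ 0) (hW : W n ≠ 0) : logRes n = Pool.Agent.Q74.DV.rr n := by
  unfold logRes
  rw [Real.log_abs, Real.log_div hW (by exact_mod_cast hn)]
  rfl

theorem mean_eq (s n₀ : ℤ) (h : ℝ → ℂ) (θ φ β : ℝ) (h0 : Divergent n₀)
    (hr : ∀ n, Divergent n → logRes n = Pool.Agent.Q74.DV.rr n) :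
    Mean s n₀ h θ φ β = Pool.Agent.Q74.SP.mean fun n =>
      Pool.Agent.Q74.DV.GC n₀ h θ φ (s * n) * Pool.Agent.Q74.SP.e (β * n) := by
  classical
  funext N
  unfold Mean Pool.Agent.Q74.SP.mean
  rw [sum_filter]
  congr 1
  apply sum_congr rfl
  intro n _
  simp only [e_eq]
  unfold Pool.Agent.Q74.DV.GC
  have h1 : Merge (s * n) n₀ ↔ Pool.Agent.Q74.DV.Mer (s * n) n₀ := Iff.rfl
  by_cases hm : Merge (s * n) n₀
  · rw [if_pos hm, if_pos (h1.1 hm), mul_assoc, ← Pool.Agent.Q74.SP.e_add,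
      hr _ ((Pool.Agent.Q74.DV.dv_mer (h1.1 hm)).2 h0)]
    rfl
  · rw [if_neg hm, if_neg (fun h => hm (h1.2 h)), zero_mul]

theorem bound_eq (x : ℝ) (n : ℕ) : bound x n = Pool.Agent.Q74.DV.bd x n := by
  have hl : 0 < Real.log (4 / 3) := Real.log_pos (by norm_num)
  unfold bound Pool.Agent.Q74.DV.bd Pool.Agent.H499R2.ND.sg Pool.Agent.H499R2.ND.c0
    Pool.Agent.H319R2.Lln.mu
  have e1 : Real.sqrt (2 * Real.log n / Real.log (4 / 3) ^ 3)
      = Real.sqrt (Real.log n) / (Real.log (4 / 3) * Real.sqrt (Real.log (4 / 3) / 2)) := by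
    have h1 : 2 * Real.log n / Real.log (4 / 3) ^ 3
        = Real.log n / (Real.log (4 / 3) ^ 2 * (Real.log (4 / 3) / 2)) := by
      field_simp
    rw [h1, Real.sqrt_div' _ (by positivity), Real.sqrt_mul (by positivity), Real.sqrt_sq hl.le]
  rw [e1]
  have h2 : 0 < Real.sqrt (Real.log (4 / 3) / 2) := Real.sqrt_pos.2 (by positivity)
  field_simp

/-- **Structure of the integers with divergent trajectory.** There is `A > 0` such that:

(1) if the trajectory of `n` is divergent then `2 ^ k T^k(n) / 3 ^ (odd k n)` tends to `W n ≠ 0` and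
`|log |W n / n|| ≤ A`;

(2) let `s` be a sign and `S` a set of integers with divergent trajectory which is closed under merging
(for example the set of all of them, or one merging class). There is a finite measure `ν` on `[-A, A]`
without atoms, whose mass is the natural density of the `n ≥ 1` with `s n ∈ S`, and which is the limit
law, in natural density, of `log |W (s n) / (s n)|`, `s n ∈ S`;

(3) if `S` is the merging class of an integer `n₀` of the sign of `s`, then `ν` is not zero; for `n ∈ S`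
the integers `K = i - j` and `O = odd i n - odd j n₀`, where `T^i(n) = T^j(n₀)`, do not depend on
`(i, j)`; `K` satisfies the central limit theorem; and for continuous `h` and real `θ`, `φ`, `β` the mean
values of `h (logRes) e (θ K + φ O + β n)` over `S` tend to zero unless `β` is an integer and `(θ, φ)` is
congruent modulo one to a point `(ω log 2, - ω log 3)`, in which case they are
`N ^ (2 π i ω) |W n₀| ^ (- 2 π i ω) (∫ h(x) e(ω x) dν / (1 + 2 π i ω) + o(1))`, and `∫ e(ω x) dν` is not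
zero for `2 π |ω| A < 1`. -/
theorem result : ∃ A : ℝ, 0 < A ∧
    (∀ n : ℤ, Divergent n →
      Tendsto (fun k : ℕ => (2 : ℝ) ^ k * (T^[k] n : ℤ) / 3 ^ (odd k n)) atTop (𝓝 (W n)) ∧
      W n ≠ 0 ∧ |logRes n| ≤ A) ∧
    ∀ s : ℤ, (s = 1 ∨ s = -1) → ∀ S : Set ℤ, (∀ n ∈ S, Divergent n) →
      (∀ m n : ℤ, Merge m n → (m ∈ S ↔ n ∈ S)) →
      ∃ ν : Measure ℝ, IsFiniteMeasure ν ∧ ν (Set.Icc (-A) A)ᶜ = 0 ∧ (∀ x : ℝ, ν {x} = 0) ∧
        HasDensity (fun n => s * (n : ℤ) ∈ S) (ν.real Set.univ) ∧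
        (∀ h : ℝ → ℂ, Continuous h →
          Tendsto (fun N : ℕ => (∑ n ∈ (Icc 1 N), (open Classical in if s * (n : ℤ) ∈ S then
            h (logRes (s * n)) else 0)) / (N : ℂ)) atTop (𝓝 (∫ x, h x ∂ν))) ∧
        ∀ n₀ : ℤ, 0 < s * n₀ → S = {n | Merge n n₀} →
          0 < ν.real Set.univ ∧
          (∀ (n : ℤ) (i j : ℕ), T^[i] n = T^[j] n₀ →
            K n₀ n = i - j ∧ O n₀ n = odd i n - odd j n₀) ∧
          (∀ x : ℝ, HasDensity (fun n => Merge (s * n) n₀ ∧ (K n₀ (s * n) : ℝ) ≤ bound x n)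
            (ν.real Set.univ * Phi x)) ∧
          (∀ ω : ℝ, 2 * Real.pi * |ω| * A < 1 → ∫ x, e (ω * x) ∂ν ≠ 0) ∧
          ∀ h : ℝ → ℂ, Continuous h → ∀ θ φ β : ℝ,
            ((ModOne β 0 → ∀ ω : ℝ, ¬ (ModOne θ (ω * Real.log 2) ∧ ModOne φ (-(ω * Real.log 3)))) →
              Tendsto (Mean s n₀ h θ φ β) atTop (𝓝 0)) ∧
            ∀ ω : ℝ, ModOne β 0 → ModOne θ (ω * Real.log 2) → ModOne φ (-(ω * Real.log 3)) →
              Tendsto (fun N : ℕ => e (-(ω * Real.log N)) * Mean s n₀ h θ φ β N) atTop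
                (𝓝 (e (-(ω * Real.log |W n₀|)) * (∫ x, h x * e (ω * x) ∂ν) /
                  (1 + 2 * Real.pi * ω * Complex.I))) := by
  classical
  obtain ⟨A, hA0, hA⟩ := Pool.Agent.Q74.DV.W_spec
  have hrr : ∀ n, Divergent n → logRes n = Pool.Agent.Q74.DV.rr n := fun n hn =>
    logRes_eq (Pool.Agent.Q74.DV.dv_ne hn) (hA n hn).1
  have hce : ∀ ω : ℝ, Continuous fun x => e (ω * x) := by
    intro ω
    unfold e
    fun_prop
  refine ⟨A, hA0, fun n hn => ⟨(hA n hn).2.1, (hA n hn).1, ?_⟩, ?_⟩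
  · rw [hrr n hn]; exact (hA n hn).2.2
  intro s hs S hSd hSm
  have hS : Pool.Agent.Q74.DV.Cl S := ⟨fun x => hSm x _ ⟨1, 0, rfl⟩, hSd⟩
  obtain ⟨ν, hν, hsupp, hsmall, hlaw⟩ := Pool.Agent.Q74.DV.class_law hs hS hA0 fun n hn => (hA n hn).2.2
  -- the mass
  have hdens : Pool.Agent.H499R2.ND.Dn (fun n : ℕ => s * (n : ℤ) ∈ S) (ν.real Set.univ) := by
    have h1 := hlaw (fun _ => 1) continuous_const
    have h2 : (Pool.Agent.Q74.SP.mean (Pool.Agent.Q74.DV.gf (Pool.Agent.Q74.DV.PS s S)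
        (Pool.Agent.Q74.DV.rs s) fun _ => 1))
        = fun N : ℕ => ((Pool.Agent.H499R2.ND.cnt (fun n : ℕ => s * (n : ℤ) ∈ S) N / N : ℝ) : ℂ) := by
      funext N
      unfold Pool.Agent.Q74.SP.mean
      rw [Pool.Agent.H499R2.ND.cnt_eq]
      push_cast
      congr 1
      rw [Finset.card_filter]
      push_cast
      rfl
    rw [h2, integral_const, Complex.real_smul, mul_one] at h1
    have h3 := (Complex.continuous_re.tendsto _).comp h1
    unfold Pool.Agent.H499R2.ND.Dn
    simpa only [Function.comp_def, Complex.ofReal_re] using h3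
  refine ⟨ν, hν, hsupp, ?_, hdens, ?_, ?_⟩
  · intro x
    have h1 : ν.real {x} = 0 := by
      apply le_antisymm _ measureReal_nonneg
      apply le_of_forall_pos_le_add
      intro ε hε
      obtain ⟨η, hη, h2⟩ := hsmall ε hε
      rw [zero_add]
      refine le_trans (measureReal_mono ?_) (h2 x)
      rintro _ rfl
      constructor <;> linarith
    exact (measureReal_eq_zero_iff).1 h1
  · intro h hh
    refine (hlaw h hh).congr fun N => ?_
    unfold Pool.Agent.Q74.SP.mean
    congr 1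
    apply sum_congr rfl
    intro n _
    unfold Pool.Agent.Q74.DV.gf Pool.Agent.Q74.DV.PS Pool.Agent.Q74.DV.rs
    by_cases hn : s * (n : ℤ) ∈ S
    · rw [if_pos hn, if_pos hn, hrr _ (hSd _ hn)]
    · rw [if_neg hn, if_neg hn]
  intro n₀ hn₀ hSn
  have h0 : Divergent n₀ := hSd n₀ (by rw [hSn]; exact Pool.Agent.Q74.DV.mer_refl n₀)
  have h0' : Pool.Agent.Q74.DV.Dv n₀ := h0
  have hpos : 0 < ν.real Set.univ := by
    have hcop : IsCoprime (1 : ℤ) 3 := isCoprime_one_left
    obtain ⟨l, _, _, hl⟩ := Pool.Agent.H499R2.ND.dens_side odd_one hcop hs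
      (Pool.Agent.H499R2.ND.Mg_inv 1 n₀)
    have h1 := Pool.Agent.H499R2.ND.one_pos hs (Pool.Agent.H499R2.ND.Mg_inv 1 n₀)
      (Pool.Agent.H499R2.ND.Mg_self _ n₀) hn₀ hl
    have h2 := Pool.Agent.H499R2.ND.HD_ncard hs hl
    have h3 : Pool.Agent.H499R2.ND.Dn (fun n : ℕ => s * (n : ℤ) ∈ S) l := by
      refine h2.congr fun N => ?_
      change _ = (({n : ℕ | 1 ≤ n ∧ n ≤ N ∧ s * (n : ℤ) ∈ S}.ncard : ℝ)) / N
      congr 2
      have himg : {n : ℤ | 0 < s * n ∧ s * n ≤ N ∧ n ∈ Pool.Agent.H499R2.ND.Mg (Pool.Agent.H499R2.ND.Td 1) n₀}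
          = (fun n : ℕ => s * (n : ℤ)) '' {n : ℕ | 1 ≤ n ∧ n ≤ N ∧ s * (n : ℤ) ∈ S} := by
        ext m
        simp only [Set.mem_ofPred_eq, Set.mem_image]
        constructor
        · rintro ⟨h4, h5, h6⟩
          refine ⟨(s * m).toNat, ⟨by omega, by omega, ?_⟩, ?_⟩
          · have h7 : s * (((s * m).toNat : ℕ) : ℤ) = m := by
              rw [Int.toNat_of_nonneg h4.le]
              rcases hs with rfl | rfl <;> ring
            rw [h7, hSn]
            exact h6
          · rw [Int.toNat_of_nonneg h4.le]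
            rcases hs with rfl | rfl <;> ring
        · rintro ⟨n, ⟨h4, h5, h6⟩, rfl⟩
          have h7 : s * (s * (n : ℤ)) = n := by rcases hs with rfl | rfl <;> ring
          rw [h7]
          refine ⟨by exact_mod_cast h4, by exact_mod_cast h5, ?_⟩
          rw [hSn] at h6
          exact h6
      rw [himg, Set.ncard_image_of_injective]
      intro a b hab
      simp only at hab
      rcases hs with rfl | rfl <;> omega
    rw [tendsto_nhds_unique hdens h3]
    exact h1
  refine ⟨hpos, fun n i j hij => Pool.Agent.Q74.DV.kk_oo h0' hij, ?_, ?_, ?_⟩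
  · intro x
    have h1 : Pool.Agent.H499R2.ND.Dn (fun n : ℕ => Pool.Agent.Q74.DV.Mer (s * n) n₀) (ν.real Set.univ) := by
      rw [hSn] at hdens
      exact hdens
    have h2 := Pool.Agent.Q74.DV.clt h0' hs h1 x
    have h3 : (fun n : ℕ => Merge (s * n) n₀ ∧ (K n₀ (s * n) : ℝ) ≤ bound x n)
        = fun n : ℕ => Pool.Agent.Q74.DV.Mer (s * n) n₀ ∧
          (Pool.Agent.Q74.DV.kk n₀ (s * n) : ℝ) ≤ Pool.Agent.Q74.DV.bd x n := by
      funext n
      rw [bound_eq]
      rfl
    rw [h3]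
    exact h2
  · intro ω hω h00
    have hint : ∀ g : ℝ → ℂ, Continuous g → Integrable g ν := fun g hg =>
      Pool.Agent.Q74.SP.integrable_of_supp hsupp hg
    have h1 : ∫ x, (e (ω * x) - 1) ∂ν = -(ν.real Set.univ : ℂ) := by
      rw [integral_sub (hint _ (hce ω)) (hint _ continuous_const), h00, zero_sub, integral_const,
        Complex.real_smul, mul_one]
    have h2 : ‖∫ x, (e (ω * x) - 1) ∂ν‖ ≤ (2 * Real.pi * |ω| * A) * ν.real Set.univ := by
      apply norm_integral_le_of_norm_le_const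
      rw [ae_iff]
      refine measure_mono_null (t := (Set.Icc (-A) A)ᶜ) ?_ hsupp
      intro x hx hx'
      apply hx
      rw [e_eq]
      refine (Pool.Agent.Q74.SP.norm_e_sub_one_le _).trans ?_
      rw [abs_mul]
      have h3 : |x| ≤ A := abs_le.2 hx'
      have h4 : 0 ≤ 2 * Real.pi * |ω| := by positivity
      nlinarith
    rw [h1, norm_neg, Complex.norm_real, Real.norm_eq_abs, abs_of_pos hpos] at h2
    nlinarith
  intro h hh θ φ β
  have hcoc := Pool.Agent.Q74.DV.gc_coc h0' hh (fun n hn => (hA n hn).2.2) hs θ φ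
  constructor
  · intro hres
    rw [mean_eq s n₀ h θ φ β h0 hrr]
    by_cases hβ : ModOne β 0
    · obtain ⟨m, hm⟩ := hβ
      rw [zero_add] at hm
      have h1 := Pool.Agent.Q74.SP.null hcoc (by
        rintro ω ⟨⟨l, hl⟩, ⟨m', hm'⟩⟩
        refine hres ⟨m, by rw [zero_add]; exact hm⟩ ω ⟨⟨l, by linarith⟩, ⟨m', by linarith⟩⟩)
      refine h1.congr fun N => ?_
      congr 1
      funext n
      rw [hm, show (m : ℝ) * (n : ℝ) = ((m * n : ℤ) : ℝ) by push_cast; ring, Pool.Agent.Q74.SP.e_int, mul_one]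
    · exact Pool.Agent.Q74.SP.null_beta hcoc fun n hn => hβ ⟨n, by rw [zero_add]; exact hn⟩
  · rintro ω ⟨b, hb⟩ ⟨l, hl⟩ ⟨m, hm⟩
    rw [zero_add] at hb
    have h1 := (Pool.Agent.Q74.SP.twist (hlaw (fun x => h x * e (ω * x)) (hh.mul (hce ω))) ω).const_mul
      (e (-(ω * Real.log |W n₀|)))
    rw [← mul_div_assoc] at h1
    refine h1.congr' (Eventually.of_forall fun N => ?_)
    simp only [mean_eq s n₀ h θ φ β h0 hrr, e_eq (-(ω * Real.log N))]
    rw [mul_left_comm, ← Pool.Agent.Q74.SP.mean_mul]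
    congr 1
    have h2 : (Pool.Agent.Q74.SP.mean fun n : ℕ => e (-(ω * Real.log |W n₀|)) *
          (Pool.Agent.Q74.DV.gf (Pool.Agent.Q74.DV.PS s S) (Pool.Agent.Q74.DV.rs s)
            (fun x => h x * e (ω * x)) n * Pool.Agent.Q74.SP.e (ω * Real.log n)))
        = Pool.Agent.Q74.SP.mean fun n : ℕ =>
          Pool.Agent.Q74.DV.GC n₀ h θ φ (s * n) * Pool.Agent.Q74.SP.e (β * n) := by
      apply Pool.Agent.Q74.SP.mean_congr
      intro n hn
      rw [hb, show (b : ℝ) * (n : ℝ) = ((b * n : ℤ) : ℝ) by push_cast; ring, Pool.Agent.Q74.SP.e_int, mul_one]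
      unfold Pool.Agent.Q74.DV.GC Pool.Agent.Q74.DV.gf Pool.Agent.Q74.DV.PS Pool.Agent.Q74.DV.rs
      by_cases hmx : s * (n : ℤ) ∈ S
      · have hmx' : Pool.Agent.Q74.DV.Mer (s * n) n₀ := by
          rw [hSn] at hmx
          exact hmx
        rw [if_pos hmx, if_pos hmx']
        have h3 := Pool.Agent.Q74.DV.rr_kk h0' hmx'
        have hlogn : Real.log ((s * n : ℤ) : ℝ) = Real.log n := by
          rcases hs with rfl | rfl
          · push_cast; rw [one_mul]
          · push_cast; rw [neg_one_mul, Real.log_neg_eq_log]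
        rw [hlogn] at h3
        have hlogW : Real.log |W n₀| = Real.log (Pool.Agent.Q74.DV.W n₀) := Real.log_abs _
        have h4 : θ * Pool.Agent.Q74.DV.kk n₀ (s * n) + φ * Pool.Agent.Q74.DV.oo n₀ (s * n)
            = (-(ω * Real.log |W n₀|) + (ω * Pool.Agent.Q74.DV.rr (s * n) + ω * Real.log n))
              + ((l * Pool.Agent.Q74.DV.kk n₀ (s * n) + m * Pool.Agent.Q74.DV.oo n₀ (s * n) : ℤ) : ℝ) := by
          rw [h3, hlogW, hl, hm]
          push_cast
          ring
        rw [h4, Pool.Agent.Q74.SP.e_add _ ((_ : ℤ) : ℝ), Pool.Agent.Q74.SP.e_int, mul_one,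
          Pool.Agent.Q74.SP.e_add, Pool.Agent.Q74.SP.e_add, e_eq]
        simp only [e_eq]
        ring
      · have hmx' : ¬ Pool.Agent.Q74.DV.Mer (s * n) n₀ := by
          intro h
          apply hmx
          rw [hSn]
          exact h
        rw [if_neg hmx, if_neg hmx', zero_mul, mul_zero]
    rw [h2]

end Pool.Agent.Results.MP_ff4775_nt.StructureOfDivergentClasses
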